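import Mathlib

set_option autoImplicit false

/-!
# Interface of the project HE (MP_d19827_al): hyperelementary induction for groups of type FF

Definitions and the statements `S_X` of the pieces. Everything is in `Type`.
-/

namespace Pool.Agent.K1H12.SW

/-! ### modules over a ring -/

section modules

variable (R : Type) [Ring R]

/-- finitely generated and stably free -/
def SF (P : Type) [AddCommGroup P] [Module R P] : Prop :=
  ∃ a b : ℕ, Nonempty ((P × (Fin a → R)) ≃ₗ[R] (Fin b → R))

/-- finitely generated and projective -/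
def PR (P : Type) [AddCommGroup P] [Module R P] : Prop :=
  Module.Finite R P ∧ Module.Projective R P

/-- a resolution of length at most `n` by modules in the class `C` -/
def Res (C : ∀ (P : Type) [AddCommGroup P] [Module R P], Prop) :
    ℕ → ∀ (M : Type) [AddCommGroup M] [Module R M], Prop
  | 0, M, _, _ => C M
  | n + 1, M, _, _ => ∃ (P : Type) (_ : AddCommGroup P) (_ : Module R P) (f : P →ₗ[R] M),
      C P ∧ Function.Surjective f ∧ Res C n (LinearMap.ker f)

/-- modules with a finite resolution by finitely generated stably free modules -/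
def FF (M : Type) [AddCommGroup M] [Module R M] : Prop := ∃ n, Res R (fun P _ _ => SF R P) n M

/-- modules with a finite resolution by finitely generated projective modules -/
def FP (M : Type) [AddCommGroup M] [Module R M] : Prop := ∃ n, Res R (fun P _ _ => PR R P) n M

/-- the two-out-of-three property for short exact sequences -/
def TT (C : ∀ (P : Type) [AddCommGroup P] [Module R P], Prop) : Prop :=
  ∀ (A B D : Type) [AddCommGroup A] [Module R A] [AddCommGroup B] [Module R B] [AddCommGroup D]
    [Module R D] (f : A →ₗ[R] B) (g : B →ₗ[R] D),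
    Function.Injective f → Function.Surjective g → Function.Exact f g →
      (C A → C D → C B) ∧ (C B → C D → C A) ∧ (C A → C B → C D)

/-- the two modules have the same class in the reduced projective class group -/
def Same (M N : Type) [AddCommGroup M] [Module R M] [AddCommGroup N] [Module R N] : Prop :=
  ∃ (P : Type) (_ : AddCommGroup P) (_ : Module R P), PR R P ∧ FF R (M × P) ∧ FF R (N × P)

/-- the properties of `Same` -/
structure SameProps : Prop where
  refl : ∀ (M : Type) [AddCommGroup M] [Module R M], FP R M → Same R M M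
  trans : ∀ (M N K : Type) [AddCommGroup M] [Module R M] [AddCommGroup N] [Module R N]
    [AddCommGroup K] [Module R K], Same R M N → Same R N K → Same R M K
  transfer : ∀ (M N : Type) [AddCommGroup M] [Module R M] [AddCommGroup N] [Module R N],
    Same R M N → FF R M → FF R N
  two : ∀ (A B D A' B' D' : Type) [AddCommGroup A] [Module R A] [AddCommGroup B] [Module R B]
    [AddCommGroup D] [Module R D] [AddCommGroup A'] [Module R A'] [AddCommGroup B'] [Module R B']
    [AddCommGroup D'] [Module R D'] (f : A →ₗ[R] B) (g : B →ₗ[R] D) (f' : A' →ₗ[R] B')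
    (g' : B' →ₗ[R] D'), Function.Injective f → Function.Surjective g → Function.Exact f g →
    Function.Injective f' → Function.Surjective g' → Function.Exact f' g' →
    Same R A A' → Same R D D' → Same R B B'
  swap : ∀ (A B D B' : Type) [AddCommGroup A] [Module R A] [AddCommGroup B] [Module R B]
    [AddCommGroup D] [Module R D] [AddCommGroup B'] [Module R B']
    (f : A →ₗ[R] B) (g : B →ₗ[R] D) (f' : D →ₗ[R] B') (g' : B' →ₗ[R] A),
    Function.Injective f → Function.Surjective g → Function.Exact f g →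
    Function.Injective f' → Function.Surjective g' → Function.Exact f' g' →
    FP R A → FP R D → Same R B B'

end modules

/-- PIECE TT -/
def S_TT : Prop := ∀ (R : Type) [Ring R], TT R (FF R) ∧ TT R (FP R)

/-- PIECE SM -/
def S_SM : Prop := ∀ (R : Type) [Ring R], TT R (FF R) → TT R (FP R) → SameProps R

/-! ### representations over the integers -/

section reps

variable {G : Type} [Group G]

/-- finite free resolution over `ℤG` -/
def FFr {V : Type} [AddCommGroup V] (ρ : Representation ℤ G V) : Prop :=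
  FF (MonoidAlgebra ℤ G) ρ.asModule

/-- finite projective resolution over `ℤG` -/
def FPr {V : Type} [AddCommGroup V] (ρ : Representation ℤ G V) : Prop :=
  FP (MonoidAlgebra ℤ G) ρ.asModule

/-- the same class -/
def SameR {V W : Type} [AddCommGroup V] [AddCommGroup W] (ρ : Representation ℤ G V)
    (σ : Representation ℤ G W) : Prop := Same (MonoidAlgebra ℤ G) ρ.asModule σ.asModule

/-- equivariant -/
def Eqv {V W : Type} [AddCommGroup V] [AddCommGroup W] (ρ : Representation ℤ G V)
    (σ : Representation ℤ G W) (f : V →ₗ[ℤ] W) : Prop := ∀ (g : G) (v : V), f (ρ g v) = σ g (f v)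

/-- there is a short exact sequence `0 → α → β → δ → 0` of representations -/
def Ses {A B D : Type} [AddCommGroup A] [AddCommGroup B] [AddCommGroup D]
    (α : Representation ℤ G A) (β : Representation ℤ G B) (δ : Representation ℤ G D) : Prop :=
  ∃ (f : A →ₗ[ℤ] B) (g : B →ₗ[ℤ] D), Eqv α β f ∧ Eqv β δ g ∧ Function.Injective f ∧
    Function.Surjective g ∧ Function.Exact f g

/-- isomorphic representations -/
def IsoR {V W : Type} [AddCommGroup V] [AddCommGroup W] (ρ : Representation ℤ G V)
    (σ : Representation ℤ G W) : Prop := ∃ f : V ≃ₗ[ℤ] W, Eqv ρ σ f.toLinearMap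

/-- finitely generated abelian group on which `G` acts through a finite group -/
def Small {V : Type} [AddCommGroup V] (ρ : Representation ℤ G V) : Prop :=
  Module.Finite ℤ V ∧ (Set.range ρ).Finite

/-- the functions on the `G`-set `X` with values in the representation `σ` -/
def permR (X : Type) [MulAction G X] {V : Type} [AddCommGroup V] (σ : Representation ℤ G V) :
    Representation ℤ G (X → V) where
  toFun g :=
    { toFun := fun f x => σ g (f (g⁻¹ • x))
      map_add' := fun f f' => by funext x; simp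
      map_smul' := fun n f => by funext x; simp }
  map_one' := by ext f x; simp
  map_mul' g h := by
    refine LinearMap.ext fun f => funext fun x => ?_
    simp [mul_smul]

variable (G)

/-- the trivial representation on `ℤ` -/
abbrev triv : Representation ℤ G ℤ := Representation.trivial ℤ G ℤ

/-- the properties on the level of representations -/
structure RepProps : Prop where
  isoF : ∀ (V W : Type) [AddCommGroup V] [AddCommGroup W] (ρ : Representation ℤ G V)
    (σ : Representation ℤ G W), IsoR ρ σ → FFr ρ → FFr σ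
  isoP : ∀ (V W : Type) [AddCommGroup V] [AddCommGroup W] (ρ : Representation ℤ G V)
    (σ : Representation ℤ G W), IsoR ρ σ → FPr ρ → FPr σ
  zeroF : ∀ (V : Type) [AddCommGroup V] (ρ : Representation ℤ G V), Subsingleton V → FFr ρ
  zeroP : ∀ (V : Type) [AddCommGroup V] (ρ : Representation ℤ G V), Subsingleton V → FPr ρ
  ttF : ∀ (A B D : Type) [AddCommGroup A] [AddCommGroup B] [AddCommGroup D]
    (α : Representation ℤ G A) (β : Representation ℤ G B) (δ : Representation ℤ G D),
    Ses α β δ → (FFr α → FFr δ → FFr β) ∧ (FFr β → FFr δ → FFr α) ∧ (FFr α → FFr β → FFr δ)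
  ttP : ∀ (A B D : Type) [AddCommGroup A] [AddCommGroup B] [AddCommGroup D]
    (α : Representation ℤ G A) (β : Representation ℤ G B) (δ : Representation ℤ G D),
    Ses α β δ → (FPr α → FPr δ → FPr β) ∧ (FPr β → FPr δ → FPr α) ∧ (FPr α → FPr β → FPr δ)
  refl : ∀ (V : Type) [AddCommGroup V] (ρ : Representation ℤ G V), FPr ρ → SameR ρ ρ
  symm : ∀ (V W : Type) [AddCommGroup V] [AddCommGroup W] (ρ : Representation ℤ G V)
    (σ : Representation ℤ G W), SameR ρ σ → SameR σ ρ
  trans : ∀ (V W U : Type) [AddCommGroup V] [AddCommGroup W] [AddCommGroup U]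
    (ρ : Representation ℤ G V) (σ : Representation ℤ G W) (τ : Representation ℤ G U),
    SameR ρ σ → SameR σ τ → SameR ρ τ
  transfer : ∀ (V W : Type) [AddCommGroup V] [AddCommGroup W] (ρ : Representation ℤ G V)
    (σ : Representation ℤ G W), SameR ρ σ → FFr ρ → FFr σ
  iso : ∀ (V W : Type) [AddCommGroup V] [AddCommGroup W] (ρ : Representation ℤ G V)
    (σ : Representation ℤ G W), IsoR ρ σ → FPr ρ → SameR ρ σ
  two : ∀ (A B D A' B' D' : Type) [AddCommGroup A] [AddCommGroup B] [AddCommGroup D]
    [AddCommGroup A'] [AddCommGroup B'] [AddCommGroup D']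
    (α : Representation ℤ G A) (β : Representation ℤ G B) (δ : Representation ℤ G D)
    (α' : Representation ℤ G A') (β' : Representation ℤ G B') (δ' : Representation ℤ G D'),
    Ses α β δ → Ses α' β' δ' → SameR α α' → SameR δ δ' → SameR β β'
  swap : ∀ (A B D B' : Type) [AddCommGroup A] [AddCommGroup B] [AddCommGroup D] [AddCommGroup B']
    (α : Representation ℤ G A) (β : Representation ℤ G B) (δ : Representation ℤ G D)
    (β' : Representation ℤ G B'), Ses α β δ → Ses δ β' α → FPr α → FPr δ → SameR β β'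

/-- the conclusion of the piece `FIN` for the group `G` -/
structure FinProps : Prop where
  F : FFr (triv G) → ∀ (V : Type) [AddCommGroup V] (ρ : Representation ℤ G V), Small ρ → FFr ρ
  P : FPr (triv G) → ∀ (V : Type) [AddCommGroup V] (ρ : Representation ℤ G V), Small ρ → FPr ρ

end reps

/-- `RepProps` for all groups -/
def AllRep : Prop := ∀ (G : Type) [Group G], RepProps G

/-- `FinProps` for all groups -/
def AllFin : Prop := ∀ (G : Type) [Group G], FinProps G

/-- PIECE RR -/
def S_RR : Prop := (∀ (R : Type) [Ring R], TT R (FF R) ∧ TT R (FP R)) →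
  (∀ (R : Type) [Ring R], SameProps R) → AllRep

/-- PIECE LAT -/
def S_LAT : Prop := AllRep → ∀ (G : Type) [Group G] (V : Type) [AddCommGroup V]
  (ρ : Representation ℤ G V), Module.Finite ℤ V → Module.Free ℤ V →
  (FFr (triv G) → FFr ρ) ∧ (FPr (triv G) → FPr ρ)

/-- PIECE FIN -/
def S_FIN : Prop := AllRep → S_LAT → AllFin

/-- PIECE IND -/
def S_IND : Prop := AllRep → ∀ (G : Type) [Group G] (K : Subgroup G), K.FiniteIndex →
  ∀ (V : Type) [AddCommGroup V] (σ : Representation ℤ G V),
  FFr (σ.comp K.subtype : Representation ℤ K V) → FFr (permR (G ⧸ K) σ)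

/-- PIECE PERM -/
def S_PERM : Prop := AllRep → AllFin → S_IND → ∀ (G : Type) [Group G]
  (X : Type) [Finite X] [MulAction G X], (∀ x : X, FFr (triv (MulAction.stabilizer G x))) →
  ∀ (V : Type) [AddCommGroup V] (σ : Representation ℤ G V), Small σ → FFr (permR X σ)

/-- PIECE EL -/
def S_EL : Prop := AllRep → AllFin → ∀ (G : Type) [Group G], FPr (triv G) →
  ∀ (M M' S : Type) [AddCommGroup M] [AddCommGroup M'] [AddCommGroup S] (μ : Representation ℤ G M)
    (μ' : Representation ℤ G M') (σ : Representation ℤ G S) (j : M →ₗ[ℤ] M') (p l : ℕ),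
    Module.Free ℤ M → Module.Free ℤ M' → Small μ → Small μ' → Small σ →
    p.Prime → l.Prime → (∀ s : S, l • s = 0) → Eqv μ μ' j → Function.Injective j →
    (∀ x : M', ∃ y : M, j y = p • x) →
    SameR (Representation.linHom μ σ) (Representation.linHom μ' σ)

/-- PIECE CH -/
def S_CH : Prop := AllRep → AllFin → S_EL → ∀ (G : Type) [Group G], FPr (triv G) →
  ∀ (M L S : Type) [AddCommGroup M] [AddCommGroup L] [AddCommGroup S] (μ : Representation ℤ G M)
    (ν : Representation ℤ G L) (σ : Representation ℤ G S) (j : M →ₗ[ℤ] L) (N : ℕ),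
    Module.Free ℤ M → Module.Free ℤ L → Small μ → Small ν → Small σ → Finite S →
    Eqv μ ν j → Function.Injective j → 0 < N → (∀ x : L, ∃ y : M, j y = N • x) →
    SameR (Representation.linHom μ σ) (Representation.linHom ν σ)

/-! ### finite groups -/

/-- `H` has a cyclic normal subgroup of order prime to `p` and of `p`-power index -/
def Hyp (p : ℕ) (H : Type) [Group H] : Prop :=
  ∃ C : Subgroup H, C.Normal ∧ IsCyclic C ∧ (Nat.card C).Coprime p ∧ ∃ k : ℕ, C.index = p ^ k

/-- `m` is the difference of the permutation characters of two finite `Q`-sets with stabilizers in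
the family `𝓗` -/
def IndM (Q : Type) [Group Q] (𝓗 : Subgroup Q → Prop) (m : ℕ) : Prop :=
  ∃ (X Y : Type) (_ : Finite X) (_ : Finite Y) (_ : MulAction Q X) (_ : MulAction Q Y),
    (∀ x : X, 𝓗 (MulAction.stabilizer Q x)) ∧ (∀ y : Y, 𝓗 (MulAction.stabilizer Q y)) ∧
    ∀ q : Q, m + Nat.card (MulAction.fixedBy X q) = Nat.card (MulAction.fixedBy Y q)

/-- PIECE BUR -/
def S_BUR : Prop := ∀ (Q : Type) [Group Q] [Fintype Q] (𝓗 : Subgroup Q → Prop) (n : Q → ℕ),
  (∀ H K : Subgroup Q, 𝓗 H → K ≤ H → 𝓗 K) →
  (∀ q : Q, ∃ (X : Type) (_ : Finite X) (_ : MulAction Q X),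
    (∀ x : X, 𝓗 (MulAction.stabilizer Q x)) ∧ Nat.card (MulAction.fixedBy X q) = n q) →
  IndM Q 𝓗 (∏ q : Q, n q)

/-- PIECE SOL -/
def S_SOL : Prop := ∀ (Q : Type) [Group Q] [Finite Q] (p : ℕ), p.Prime → ∀ q : Q,
  ∃ (X : Type) (_ : Finite X) (_ : MulAction Q X),
    (∀ x : X, Hyp p (MulAction.stabilizer Q x)) ∧ ¬ p ∣ Nat.card (MulAction.fixedBy X q)

/-- PIECE HE -/
def S_HE : Prop := S_BUR → S_SOL → ∀ (Q : Type) [Group Q] [Finite Q],
  (∀ p : ℕ, p.Prime → ∃ m : ℕ, ¬ p ∣ m ∧ IndM Q (fun H => Hyp p H) m) ∧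
  IndM Q (fun H => ∃ p : ℕ, p.Prime ∧ Hyp p H) 1 ∧
  ∃ m : ℕ, 0 < m ∧ IndM Q (fun H => IsCyclic H) m

/-- PIECE RAT -/
def S_RAT : Prop := ∀ (Q : Type) [Group Q] [Finite Q] (X Y : Type) [Finite X] [Finite Y]
  [MulAction Q X] [MulAction Q Y],
  (∀ q : Q, Nat.card (MulAction.fixedBy X q) = Nat.card (MulAction.fixedBy Y q)) →
  ∃ (j : (X → ℤ) →ₗ[ℤ] (Y → ℤ)) (N : ℕ), Eqv (permR X (triv Q)) (permR Y (triv Q)) j ∧
    Function.Injective j ∧ 0 < N ∧ ∀ y : Y → ℤ, ∃ x : X → ℤ, j x = N • y

/-! ### resolutions as sequences -/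

/-- the trivial `ℤG`-module `A` has a finite resolution by finitely generated projective modules -/
def ProjRes (G : Type) [Group G] (A : Type) [AddCommGroup A] : Prop :=
  ∃ (P : ℕ → Type) (_ : ∀ i, AddCommGroup (P i)) (_ : ∀ i, Module (MonoidAlgebra ℤ G) (P i))
    (d : ∀ i, P (i + 1) →ₗ[MonoidAlgebra ℤ G] P i) (ε : P 0 →+ A) (n : ℕ),
    (∀ i, Module.Finite (MonoidAlgebra ℤ G) (P i)) ∧
    (∀ i, Module.Projective (MonoidAlgebra ℤ G) (P i)) ∧
    (∀ i, n < i → Subsingleton (P i)) ∧
    (∀ (g : G) (x : P 0), ε (MonoidAlgebra.of ℤ G g • x) = ε x) ∧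
    Function.Surjective ε ∧
    (∀ x : P 0, ε x = 0 ↔ x ∈ LinearMap.range (d 0)) ∧
    (∀ i, LinearMap.range (d (i + 1)) = LinearMap.ker (d i))

/-- the trivial `ℤG`-module `A` has a finite resolution by finitely generated free modules -/
def FreeRes (G : Type) [Group G] (A : Type) [AddCommGroup A] : Prop :=
  ∃ (P : ℕ → Type) (_ : ∀ i, AddCommGroup (P i)) (_ : ∀ i, Module (MonoidAlgebra ℤ G) (P i))
    (d : ∀ i, P (i + 1) →ₗ[MonoidAlgebra ℤ G] P i) (ε : P 0 →+ A) (n : ℕ),
    (∀ i, Module.Finite (MonoidAlgebra ℤ G) (P i)) ∧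
    (∀ i, Module.Free (MonoidAlgebra ℤ G) (P i)) ∧
    (∀ i, n < i → Subsingleton (P i)) ∧
    (∀ (g : G) (x : P 0), ε (MonoidAlgebra.of ℤ G g • x) = ε x) ∧
    Function.Surjective ε ∧
    (∀ x : P 0, ε x = 0 ↔ x ∈ LinearMap.range (d 0)) ∧
    (∀ i, LinearMap.range (d (i + 1)) = LinearMap.ker (d i))

/-- PIECE DEF -/
def S_DEF : Prop := ∀ (G : Type) [Group G] (A : Type) [AddCommGroup A],
  (ProjRes G A → FPr (Representation.trivial ℤ G A)) ∧
  (FreeRes G A → FFr (Representation.trivial ℤ G A)) ∧
  (FFr (Representation.trivial ℤ G A) → FreeRes G A)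

/-- PIECE SUB -/
def S_SUB : Prop := ∀ (G : Type) [Group G] (K : Subgroup G), K.FiniteIndex →
  ∀ (A : Type) [AddCommGroup A], (ProjRes G A → ProjRes K A) ∧ (FreeRes G A → FreeRes K A)

end Pool.Agent.K1H12.SW
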