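import Pool.Agent.K1H12.SW.Main3
import Pool.Agent.K1H16.HE.TT
import Pool.Agent.K1H38.HE.SM
import Pool.Agent.K1H74.HE.RR
import Pool.Agent.K1H65.HE.LAT
import Pool.Agent.K1H99.HE.Fin
import Pool.Agent.K1H89.HE.Ind
import Pool.Agent.K1H99.HE.PermA
import Pool.Agent.K1H59.HE.EL
import Pool.Agent.K1H37.HE.Ch
import Pool.Agent.K1H78.HE.Bur
import Pool.Agent.K1H21.HE.SOL
import Pool.Agent.K1H78.HE.HE
import Pool.Agent.K1H1.HE.Rat
import Pool.Agent.K1H42.HE.DEF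
import Pool.Agent.K1H20.HE.Sub
import Pool.Agent.K1H38.HE.Iso
import Pool.Agent.K1H33.HE.Lata
import Pool.Agent.K1H33.HE.Fina
import Pool.Agent.K1H85.HE.Art

set_option autoImplicit false

namespace Pool.Agent.K1H12.SW

theorem allRep : AllRep :=
  Pool.Agent.K1H74.HE.t_RR Pool.Agent.K1H16.HE.t_TT
    (fun R _ => Pool.Agent.K1H38.HE.t_SM R (Pool.Agent.K1H16.HE.t_TT R).1
      (Pool.Agent.K1H16.HE.t_TT R).2)

theorem pieces : Pieces where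
  A := allRep
  B := Pool.Agent.K1H99.HE.t_FIN allRep Pool.Agent.K1H65.HE.t_LAT
  C := Pool.Agent.K1H33.HE.t_FINa allRep Pool.Agent.K1H33.HE.t_LATa
  IND := Pool.Agent.K1H89.HE.t_IND
  PERM := Pool.Agent.K1H99.HE.t_PERMa
  EL := Pool.Agent.K1H59.HE.t_EL
  CH := Pool.Agent.K1H37.HE.t_CH
  RAT := Pool.Agent.K1H1.HE.t_RAT
  BUR := Pool.Agent.K1H78.HE.t_BUR
  SOL := Pool.Agent.K1H21.HE.t_SOL
  HE := Pool.Agent.K1H78.HE.t_HE
  DEF := Pool.Agent.K1H42.HE.t_DEF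
  SUB := Pool.Agent.K1H20.HE.t_SUB
  ISO := Pool.Agent.K1H38.HE.t_ISO

theorem art : S_ART := Pool.Agent.K1H85.HE.t_ART

end Pool.Agent.K1H12.SW
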