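import Pool.Agent.K1H12.SW.Stm2

set_option autoImplicit false

namespace Pool.Agent.K1H12.SW

open Function

section pow

variable {G : Type} [Group G]

theorem powR_apply (k : ℕ) {V : Type} [AddCommGroup V] (σ : Representation ℤ G V) (g : G)
    (f : Fin k → V) (i : Fin k) : powR k σ g f i = σ g (f i) := rfl

theorem permR_apply {X : Type} [MulAction G X] {V : Type} [AddCommGroup V]
    (σ : Representation ℤ G V) (g : G) (f : X → V) (x : X) :
    permR X σ g f x = σ g (f (g⁻¹ • x)) := rfl

theorem ses_pow (k : ℕ) {A B D : Type} [AddCommGroup A] [AddCommGroup B] [AddCommGroup D]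
    {α : Representation ℤ G A} {β : Representation ℤ G B} {δ : Representation ℤ G D}
    (h : Ses α β δ) : Ses (powR k α) (powR k β) (powR k δ) := by
  obtain ⟨f, g, hf, hg, h1, h2, h3⟩ := h
  refine ⟨f.compLeft (Fin k), g.compLeft (Fin k), ?_, ?_, ?_, ?_, ?_⟩
  · intro x v
    funext i
    exact hf x (v i)
  · intro x v
    funext i
    exact hg x (v i)
  · intro v w hvw
    funext i
    exact h1 (congrFun hvw i)
  · intro v
    choose w hw using fun i => h2 (v i)
    exact ⟨w, funext hw⟩
  · intro v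
    constructor
    · intro hv
      have : ∀ i, ∃ a, f a = v i := fun i => (h3 (v i)).1 (congrFun hv i)
      choose w hw using this
      exact ⟨w, funext hw⟩
    · rintro ⟨w, rfl⟩
      funext i
      exact (h3 (f (w i))).2 ⟨w i, rfl⟩

theorem ses_succ (k : ℕ) {V : Type} [AddCommGroup V] (σ : Representation ℤ G V) :
    Ses (powR k σ) (powR (k + 1) σ) σ := by
  refine ⟨⟨⟨fun v => Fin.cons 0 v, ?_⟩, ?_⟩, ⟨⟨fun v => v 0, ?_⟩, ?_⟩, ?_, ?_, ?_, ?_, ?_⟩
  · intro v w
    funext i
    refine Fin.cases ?_ (fun j => ?_) i <;> simp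
  · intro n w
    funext i
    refine Fin.cases ?_ (fun j => ?_) i <;> simp
  · intro v w
    rfl
  · intro n v
    rfl
  · intro g v
    funext i
    refine Fin.cases ?_ (fun j => ?_) i
    · simp [powR_apply]
    · simp [powR_apply]
  · intro g v
    rfl
  · intro v w h
    funext i
    have := congrFun h i.succ
    simpa using this
  · intro v
    exact ⟨fun _ => v, rfl⟩
  · intro v
    constructor
    · intro h
      refine ⟨fun i => v i.succ, ?_⟩
      funext i
      refine Fin.cases ?_ (fun j => ?_) i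
      · simpa using h.symm
      · simp
    · rintro ⟨w, rfl⟩
      rfl

theorem ff_pow (hA : AllRep) (k : ℕ) {V : Type} [AddCommGroup V] {σ : Representation ℤ G V}
    (h : FFr σ) : FFr (powR k σ) := by
  induction k with
  | zero => exact (hA G).zeroF _ _ inferInstance
  | succ k ih => exact ((hA G).ttF _ _ _ _ _ _ (ses_succ k σ)).1 ih h

theorem isoR_symm {V W : Type} [AddCommGroup V] [AddCommGroup W] {ρ : Representation ℤ G V}
    {σ : Representation ℤ G W} (h : IsoR ρ σ) : IsoR σ ρ := by
  obtain ⟨f, hf⟩ := h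
  refine ⟨f.symm, fun g v => ?_⟩
  apply f.injective
  have h1 := hf g (f.symm v)
  simp only [LinearEquiv.coe_coe, LinearEquiv.apply_symm_apply] at h1 ⊢
  exact h1.symm

theorem same_pow (hA : AllRep) (k : ℕ) {V W : Type} [AddCommGroup V] [AddCommGroup W]
    {ρ : Representation ℤ G V} {σ : Representation ℤ G W} (h : SameR ρ σ) :
    SameR (powR k ρ) (powR k σ) := by
  induction k with
  | zero =>
    refine (hA G).iso _ _ _ _ ⟨⟨0, 0, fun _ => Subsingleton.elim _ _, fun _ => Subsingleton.elim _ _⟩,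
      fun g v => Subsingleton.elim _ _⟩ ((hA G).zeroP _ _ inferInstance)
  | succ k ih => exact (hA G).two _ _ _ _ _ _ _ _ _ _ _ _ (ses_succ k ρ) (ses_succ k σ) ih h

theorem iso_pow (k : ℕ) {V W : Type} [AddCommGroup V] [AddCommGroup W]
    {ρ : Representation ℤ G V} {σ : Representation ℤ G W} (h : IsoR ρ σ) :
    IsoR (powR k ρ) (powR k σ) := by
  obtain ⟨f, hf⟩ := h
  refine ⟨LinearEquiv.piCongrRight fun _ => f, fun g v => ?_⟩
  funext i
  exact hf g (v i)

theorem iso_swap (a b : ℕ) {V : Type} [AddCommGroup V] (σ : Representation ℤ G V) :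
    IsoR (powR a (powR b σ)) (powR b (powR a σ)) := by
  refine ⟨⟨⟨⟨fun f i j => f j i, fun _ _ => rfl⟩, fun _ _ => rfl⟩, fun f i j => f j i,
    fun _ => rfl, fun _ => rfl⟩, fun g v => rfl⟩

/-- a trivial power of a trivial representation -/
theorem iso_trivN (a b : ℕ) : IsoR (powR a (trivN G b)) (trivN G (a * b)) := by
  refine ⟨((LinearEquiv.curry ℤ ℤ (Fin a) (Fin b)).symm).trans
    (LinearEquiv.funCongrLeft ℤ ℤ finProdFinEquiv.symm), ?_⟩
  intro g f
  funext x
  rfl

theorem iso_powTriv (a : ℕ) : IsoR (powR a (triv G)) (trivN G a) :=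
  ⟨LinearEquiv.refl ℤ _, fun g v => rfl⟩

theorem iso_one {V : Type} [AddCommGroup V] (σ : Representation ℤ G V) : IsoR (powR 1 σ) σ :=
  ⟨LinearEquiv.funUnique (Fin 1) ℤ V, fun g v => rfl⟩

theorem isoR_trans {V W U : Type} [AddCommGroup V] [AddCommGroup W] [AddCommGroup U]
    {ρ : Representation ℤ G V} {σ : Representation ℤ G W} {τ : Representation ℤ G U}
    (h : IsoR ρ σ) (h' : IsoR σ τ) : IsoR ρ τ := by
  obtain ⟨f, hf⟩ := h
  obtain ⟨f', hf'⟩ := h'
  refine ⟨f.trans f', fun g v => ?_⟩
  have h1 := hf g v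
  have h2 := hf' g (f v)
  simp only [LinearEquiv.coe_coe, LinearEquiv.trans_apply] at h1 h2 ⊢
  rw [h1, h2]

theorem trivN_mul (hA : AllRep) (a b : ℕ) (h : FFr (trivN G b)) : FFr (trivN G (a * b)) :=
  (hA G).isoF _ _ _ _ (iso_trivN a b) (ff_pow hA a h)

end pow

/-- the disjoint union of `m` fixed points and `X` -/
@[reducible] def sumAct (Q : Type) [Group Q] (m : ℕ) (X : Type) [MulAction Q X] :
    MulAction Q (Fin m ⊕ X) where
  smul q := Sum.map id (q • ·)
  one_smul x := by
    rcases x with x | x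
    · rfl
    · exact congrArg Sum.inr (one_smul Q x)
  mul_smul q r x := by
    rcases x with x | x
    · rfl
    · exact congrArg Sum.inr (mul_smul q r x)

section sum

variable {G : Type} [Group G]

theorem ses_sum (m : ℕ) (X : Type) [MulAction G X] {V : Type} [AddCommGroup V]
    (σ : Representation ℤ G V) :
    Ses (permR X σ) (@permR G _ (Fin m ⊕ X) (sumAct G m X) V _ σ) (powR m σ) := by
  let _ := sumAct G m X
  refine ⟨⟨⟨fun v => Sum.elim 0 v, ?_⟩, ?_⟩, ⟨⟨fun v i => v (Sum.inl i), ?_⟩, ?_⟩,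
    ?_, ?_, ?_, ?_, ?_⟩
  · intro v w
    funext i
    rcases i with i | i <;> simp
  · intro n w
    funext i
    rcases i with i | i <;> simp
  · intro v w
    rfl
  · intro n v
    rfl
  · intro g v
    funext i
    rcases i with i | i
    · show (0 : V) = σ g (0 : V)
      simp
    · rfl
  · intro g v
    rfl
  · intro v w h
    funext i
    have := congrFun h (Sum.inr i)
    simpa using this
  · intro v
    exact ⟨Sum.elim v 0, rfl⟩
  · intro v
    constructor
    · intro h
      refine ⟨fun i => v (Sum.inr i), ?_⟩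
      funext i
      rcases i with i | i
      · exact (congrFun h i).symm
      · rfl
    · rintro ⟨w, rfl⟩
      rfl

/-- homomorphisms from a permutation module -/
theorem hom_perm (X : Type) [Finite X] [MulAction G X] {V : Type} [AddCommGroup V]
    (σ : Representation ℤ G V) :
    IsoR (Representation.linHom (permR X (triv G)) σ) (permR X σ) := by
  classical
  have := Fintype.ofFinite X
  refine ⟨((Pi.basisFun ℤ X).constr ℤ).symm, ?_⟩
  intro g f
  funext x
  have h1 : ∀ (h : (X → ℤ) →ₗ[ℤ] V) (y : X), ((Pi.basisFun ℤ X).constr ℤ).symm h y =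
      h (Pi.single y 1) := by
    intro h y
    simp [Module.Basis.constr]
  simp only [LinearEquiv.coe_coe]
  rw [h1, permR_apply, h1]
  show σ g (f (permR X (triv G) g⁻¹ (Pi.single x 1))) = _
  congr 2
  funext y
  rw [permR_apply]
  show (Pi.single x (1 : ℤ) : X → ℤ) (g⁻¹⁻¹ • y) = (Pi.single (g⁻¹ • x) (1 : ℤ) : X → ℤ) y
  rw [inv_inv]
  by_cases h : g • y = x
  · subst h
    simp
  · rw [Pi.single_eq_of_ne h, Pi.single_eq_of_ne]
    intro h2
    apply h
    rw [h2, smul_inv_smul]

end sum

section small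

variable {G : Type} [Group G]

theorem small_triv : Small (triv G) := by
  refine ⟨inferInstance, ?_⟩
  refine (Set.finite_singleton (1 : ℤ →ₗ[ℤ] ℤ)).subset ?_
  rintro _ ⟨g, rfl⟩
  rfl

end small

end Pool.Agent.K1H12.SW
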