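import Pool.Agent.K1H12.SW.Asm

set_option autoImplicit false

namespace Pool.Agent.K1H12.SW

open Function

/-- a representation on functions through a finite group is small -/
theorem small_perm {Q G : Type} [Group Q] [Finite Q] [Group G] (π : G →* Q) (X : Type) [Finite X]
    [MulAction Q X] [MulAction G X] (hX : ∀ (g : G) (x : X), g • x = π g • x) :
    Small (permR X (triv G)) := by
  refine ⟨inferInstance, ?_⟩
  refine (Set.finite_range (permR X (triv Q))).subset ?_
  rintro _ ⟨g, rfl⟩
  refine ⟨π g, ?_⟩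
  refine LinearMap.ext fun f => funext fun x => ?_
  rw [permR_apply, permR_apply, hX, map_inv]
  rfl

/-- Let the trivial module have a finite projective resolution over `ℤG`, and let `m` be a difference
of permutation characters of the finite group `Q` with stabilizers in the family `𝓗`, such that `ℤ^a`
has a finite free resolution over the preimages in `G` of all members of `𝓗`. Then `ℤ^(a m²)` has one
over `ℤG`. -/
theorem asm (hA : AllRep) (hB : AllFin) (hC : AllFinA) (hIND : S_IND) (hPERM : S_PERMa)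
    (hEL : S_EL) (hCH : S_CH)
    (hRAT : S_RAT) (G Q : Type) [Group G] [Group Q] [Finite Q] (π : G →* Q)
    (𝓗 : Subgroup Q → Prop) (m a : ℕ) (hm : IndM Q 𝓗 m) (hG : FPr (triv G))
    (hH : ∀ H : Subgroup Q, 𝓗 H → FFr (trivN (H.comap π) a)) :
    FFr (trivN G (a * (m * m))) := by
  classical
  obtain ⟨X, Y, fX, fY, aX, aY, hX, hY, hXY⟩ := hm
  let iX : MulAction Q (Fin m ⊕ X) := sumAct Q m X
  -- the rational isomorphism
  have hcard : ∀ q : Q, Nat.card (MulAction.fixedBy (Fin m ⊕ X) q) =
      Nat.card (MulAction.fixedBy Y q) := by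
    intro q
    rw [← hXY q]
    have e : MulAction.fixedBy (Fin m ⊕ X) q ≃ Fin m ⊕ MulAction.fixedBy X q :=
      { toFun := fun x => match x with
          | ⟨Sum.inl i, _⟩ => Sum.inl i
          | ⟨Sum.inr y, hy⟩ => Sum.inr ⟨y, Sum.inr_injective hy⟩
        invFun := fun x => match x with
          | Sum.inl i => ⟨Sum.inl i, rfl⟩
          | Sum.inr ⟨y, hy⟩ => ⟨Sum.inr y, congrArg Sum.inr hy⟩
        left_inv := by rintro ⟨x | x, hx⟩ <;> rfl
        right_inv := by rintro (x | ⟨x, hx⟩) <;> rfl }
    rw [Nat.card_congr e, Nat.card_sum, Nat.card_eq_fintype_card, Fintype.card_fin]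
  obtain ⟨j, N, hj, hji, hN, hjN⟩ := hRAT Q (Fin m ⊕ X) Y hcard
  -- the actions of `G`
  let bX : MulAction G X := MulAction.compHom X π
  let bY : MulAction G Y := MulAction.compHom Y π
  let bS : MulAction G (Fin m ⊕ X) := sumAct G m X
  have hbX : ∀ (g : G) (x : X), g • x = π g • x := fun g x => rfl
  have hbY : ∀ (g : G) (x : Y), g • x = π g • x := fun g x => rfl
  have hbS : ∀ (g : G) (x : Fin m ⊕ X), g • x = π g • x := by
    rintro g (x | x) <;> rfl
  have hsX : ∀ x : X, FFr (trivN (MulAction.stabilizer G x) a) := by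
    intro x
    have h1 : MulAction.stabilizer G x = (MulAction.stabilizer Q x).comap π := by
      ext g
      rw [Subgroup.mem_comap, MulAction.mem_stabilizer_iff, MulAction.mem_stabilizer_iff, hbX]
    rw [h1]
    exact hH _ (hX x)
  have hsY : ∀ x : Y, FFr (trivN (MulAction.stabilizer G x) a) := by
    intro x
    have h1 : MulAction.stabilizer G x = (MulAction.stabilizer Q x).comap π := by
      ext g
      rw [Subgroup.mem_comap, MulAction.mem_stabilizer_iff, MulAction.mem_stabilizer_iff, hbY]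
    rw [h1]
    exact hH _ (hY x)
  -- the lattices
  set μ : Representation ℤ G ((Fin m ⊕ X) → ℤ) := permR (Fin m ⊕ X) (triv G) with hμ
  set ν : Representation ℤ G (Y → ℤ) := permR Y (triv G) with hν
  have hjG : Eqv μ ν j := by
    intro g f
    have h1 := hj (π g) f
    have h2 : permR (Fin m ⊕ X) (triv Q) (π g) f = μ g f := by
      funext x
      rw [hμ, permR_apply, permR_apply, hbS, map_inv]
      rfl
    have h3 : permR Y (triv Q) (π g) (j f) = ν g (j f) := by
      funext x
      rw [hν, permR_apply, permR_apply, hbY, map_inv]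
      rfl
    rw [← h2, h1, h3]
  have hμs : Small μ := small_perm π (Fin m ⊕ X) hbS
  have hνs : Small ν := small_perm π Y hbY
  -- the quotient
  have hle : ∀ g : G, LinearMap.range j ≤ (LinearMap.range j).comap (ν g) := by
    rintro g _ ⟨f, rfl⟩
    exact ⟨μ g f, hjG g f⟩
  let T : Type := (Y → ℤ) ⧸ LinearMap.range j
  let τ : Representation ℤ G T :=
    { toFun := fun g => (LinearMap.range j).mapQ (LinearMap.range j) (ν g) (hle g)
      map_one' := by
        refine LinearMap.ext fun x => ?_
        obtain ⟨x, rfl⟩ := Submodule.Quotient.mk_surjective _ x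
        simp
      map_mul' := fun g h => by
        refine LinearMap.ext fun x => ?_
        obtain ⟨x, rfl⟩ := Submodule.Quotient.mk_surjective _ x
        simp }
  have hτ : ∀ (g : G) (x : Y → ℤ), τ g (Submodule.Quotient.mk x) = Submodule.Quotient.mk (ν g x) :=
    fun g x => rfl
  have hτs : Small τ := by
    refine ⟨inferInstance, ?_⟩
    have h1 := hνs.2
    have h2 : ∀ g h : G, ν g = ν h → τ g = τ h := by
      intro g h hgh
      refine LinearMap.ext fun x => ?_
      obtain ⟨x, rfl⟩ := Submodule.Quotient.mk_surjective _ x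
      rw [hτ, hτ, hgh]
    choose! s hs using fun (a : (Y → ℤ) →ₗ[ℤ] (Y → ℤ)) (ha : a ∈ Set.range ν) => ha
    refine (h1.image fun a => τ (s a)).subset ?_
    rintro _ ⟨g, rfl⟩
    exact ⟨ν g, ⟨g, rfl⟩, h2 _ _ (hs (ν g) ⟨g, rfl⟩)⟩
  have hTN : ∀ t : T, N • t = 0 := by
    intro t
    obtain ⟨y, rfl⟩ := Submodule.Quotient.mk_surjective _ t
    rw [← Submodule.Quotient.mk_smul, Submodule.Quotient.mk_eq_zero]
    obtain ⟨x, hx⟩ := hjN y
    exact ⟨x, hx⟩
  have hTf : Finite T := by
    exact Module.finite_of_fg_torsion T (by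
      intro t
      exact ⟨⟨(N : ℤ), by
        rw [mem_nonZeroDivisors_iff_ne_zero]
        exact_mod_cast hN.ne'⟩, by
        show (N : ℤ) • t = 0
        rw [natCast_zsmul]
        exact hTN t⟩)
  -- the classes
  have h1 : SameR (Representation.linHom μ τ) (Representation.linHom ν τ) :=
    hCH hA hB hEL G hG _ _ _ μ ν τ j N inferInstance inferInstance hμs hνs hτs hTf hjG hji hN
      (fun y => hjN y)
  have h2 : FFr (powR a (permR Y τ)) := hPERM hA hC hIND G Y a hsY T τ hτs
  have h3 : FFr (powR a (Representation.linHom ν τ)) :=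
    (hA G).isoF _ _ _ _ (iso_pow a (isoR_symm (hom_perm Y τ))) h2
  have h4 : FFr (powR a (Representation.linHom μ τ)) :=
    (hA G).transfer _ _ _ _ ((hA G).symm _ _ _ _ (same_pow hA a h1)) h3
  have h5 : FFr (powR a (permR (Fin m ⊕ X) τ)) :=
    (hA G).isoF _ _ _ _ (iso_pow a (hom_perm (Fin m ⊕ X) τ)) h4
  have h6 : FFr (powR a (permR X τ)) := hPERM hA hC hIND G X a hsX T τ hτs
  have h7 : FFr (powR a (powR m τ)) :=
    ((hA G).ttF _ _ _ _ _ _ (ses_pow a (ses_sum m X τ))).2.2 h6 h5
  have h8 : Ses μ ν τ := by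
    refine ⟨j, (LinearMap.range j).mkQ, hjG, fun g x => rfl, hji, Submodule.mkQ_surjective _, ?_⟩
    intro y
    rw [Submodule.mkQ_apply, Submodule.Quotient.mk_eq_zero]
    rfl
  have h9 : FFr (powR a (powR m ν)) :=
    (hA G).isoF _ _ _ _ (iso_swap m a ν)
      (ff_pow hA m (hPERM hA hC hIND G Y a hsY ℤ (triv G) small_triv))
  have h10 : FFr (powR a (powR m μ)) :=
    ((hA G).ttF _ _ _ _ _ _ (ses_pow a (ses_pow m h8))).2.1 h9 h7
  have h11 : FFr (powR a (powR m (permR X (triv G)))) :=
    (hA G).isoF _ _ _ _ (iso_swap m a _)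
      (ff_pow hA m (hPERM hA hC hIND G X a hsX ℤ (triv G) small_triv))
  have h12 : FFr (powR a (powR m (powR m (triv G)))) :=
    ((hA G).ttF _ _ _ _ _ _ (ses_pow a (ses_pow m (ses_sum m X (triv G))))).2.2 h11 h10
  refine (hA G).isoF _ _ _ _ ?_ h12
  exact isoR_trans (iso_pow a (isoR_trans (iso_pow m (iso_powTriv m)) (iso_trivN m m)))
    (iso_trivN a (m * m))

end Pool.Agent.K1H12.SW
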