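import Pool.Agent.K1H12.SW.Stm2

set_option autoImplicit false

namespace Pool.Agent.K1H12.SW

/-- the multiples of a generator of a normal cyclic subgroup generate a normal subgroup -/
theorem conj_mem_zpowers {Q : Type} [Group Q] (C : Subgroup Q) [C.Normal] (c : Q)
    (hc : Subgroup.zpowers c = C) (r : ℕ) (g : Q) :
    g * c ^ r * g⁻¹ ∈ Subgroup.zpowers (c ^ r) := by
  have h1 : g * c * g⁻¹ ∈ C := by
    apply Subgroup.Normal.conj_mem inferInstance
    rw [← hc]
    exact Subgroup.mem_zpowers c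
  rw [← hc] at h1
  obtain ⟨k, hk⟩ := Subgroup.mem_zpowers_iff.1 h1
  rw [← conj_pow, ← hk]
  refine Subgroup.mem_zpowers_iff.2 ⟨k, ?_⟩
  rw [← zpow_natCast, ← zpow_natCast, ← zpow_mul, ← zpow_mul, mul_comm]

/-- a finite group which is both `p`- and `q`-hyperelementary is cyclic -/
theorem cyclic_of_two {Q : Type} [Group Q] [Finite Q] {p q : ℕ} (hp : p.Prime) (hq : q.Prime)
    (hpq : p ≠ q) (h1 : Hyp p Q) (h2 : Hyp q Q) : IsCyclic Q := by
  obtain ⟨C, hCn, hCc, hCp, k, hk⟩ := h1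
  obtain ⟨D, hDn, hDc, hDq, l, hl⟩ := h2
  obtain ⟨c, hc⟩ := (Subgroup.isCyclic_iff_exists_zpowers_eq_top C).1 hCc
  obtain ⟨d, hd⟩ := (Subgroup.isCyclic_iff_exists_zpowers_eq_top D).1 hDc
  have e1 : Nat.card C * p ^ k = Nat.card Q := by rw [← hk]; exact C.card_mul_index
  have e2 : Nat.card D * q ^ l = Nat.card Q := by rw [← hl]; exact D.card_mul_index
  have hpql : Nat.Coprime (p ^ k) (q ^ l) := Nat.Coprime.pow k l ((Nat.coprime_primes hp hq).2 hpq)
  -- `q ^ l` divides the order of `C`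
  have h3 : q ^ l ∣ Nat.card C := by
    refine hpql.symm.dvd_of_dvd_mul_right ?_
    rw [e1, ← e2]
    exact Dvd.intro_left _ rfl
  obtain ⟨r, hr⟩ := h3
  have hcard : 0 < Nat.card C := Nat.card_pos
  have hr0 : 0 < r := by
    rcases Nat.eq_zero_or_pos r with h | h
    · rw [h, mul_zero] at hr
      omega
    · exact h
  have ho : orderOf c = Nat.card C := by rw [← Nat.card_zpowers, hc]
  have hd0 : orderOf d = Nat.card D := by rw [← Nat.card_zpowers, hd]
  have hox : orderOf (c ^ r) = q ^ l := by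
    rw [orderOf_pow_of_dvd hr0.ne' (by rw [ho, hr]; exact Dvd.intro_left _ rfl), ho, hr]
    exact Nat.mul_div_cancel _ hr0
  have hco : Nat.Coprime (orderOf (c ^ r)) (orderOf d) := by
    rw [hox, hd0]
    exact Nat.Coprime.pow_left _ hDq.symm
  have hcomm : Commute (c ^ r) d := by
    have h4 : (c ^ r) * d * (c ^ r)⁻¹ * d⁻¹ ∈ Subgroup.zpowers (c ^ r) := by
      have h5 : d * (c ^ r)⁻¹ * d⁻¹ ∈ Subgroup.zpowers (c ^ r) := by
        have h6 := Subgroup.inv_mem _ (conj_mem_zpowers C c hc r d)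
        have h7 : (d * c ^ r * d⁻¹)⁻¹ = d * (c ^ r)⁻¹ * d⁻¹ := by group
        rwa [h7] at h6
      have h8 := Subgroup.mul_mem _ (Subgroup.mem_zpowers (c ^ r)) h5
      have h9 : c ^ r * (d * (c ^ r)⁻¹ * d⁻¹) = (c ^ r) * d * (c ^ r)⁻¹ * d⁻¹ := by group
      rwa [h9] at h8
    have h5 : (c ^ r) * d * (c ^ r)⁻¹ * d⁻¹ ∈ Subgroup.zpowers d := by
      have h6 : (c ^ r) * d * (c ^ r)⁻¹ ∈ Subgroup.zpowers d := by
        have h7 := conj_mem_zpowers D d hd 1 (c ^ r)
        simpa using h7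
      exact Subgroup.mul_mem _ h6 (Subgroup.inv_mem _ (Subgroup.mem_zpowers d))
    have h6 : orderOf ((c ^ r) * d * (c ^ r)⁻¹ * d⁻¹) ∣ orderOf (c ^ r) :=
      orderOf_dvd_of_mem_zpowers h4
    have h7 : orderOf ((c ^ r) * d * (c ^ r)⁻¹ * d⁻¹) ∣ orderOf d :=
      orderOf_dvd_of_mem_zpowers h5
    have h8 := Nat.Coprime.eq_one_of_dvd (Nat.Coprime.coprime_dvd_left h6 hco) h7
    have h9 := orderOf_eq_one_iff.1 h8
    have h10 : (c ^ r) * d = d * (c ^ r) := by
      have h11 : (c ^ r) * d * (c ^ r)⁻¹ * d⁻¹ * (d * (c ^ r)) = 1 * (d * (c ^ r)) := by rw [h9]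
      have h12 : (c ^ r) * d * (c ^ r)⁻¹ * d⁻¹ * (d * (c ^ r)) = (c ^ r) * d := by group
      rw [h12, one_mul] at h11
      exact h11
    exact h10
  refine isCyclic_of_orderOf_eq_card (c ^ r * d) ?_
  rw [hcomm.orderOf_mul_eq_mul_orderOf_of_coprime hco, hox, hd0, ← e2, mul_comm]

/-- `Hyp` is invariant under isomorphism -/
theorem hyp_iso {p : ℕ} {H K : Type} [Group H] [Group K] (e : H ≃* K) (h : Hyp p H) : Hyp p K := by
  obtain ⟨C, h1, h2, h3, k, h4⟩ := h
  refine ⟨C.map e.toMonoidHom, ?_, ?_, ?_, k, ?_⟩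
  · exact Subgroup.Normal.map h1 _ e.surjective
  · exact isCyclic_of_surjective (C.equivMapOfInjective e.toMonoidHom e.injective)
      (C.equivMapOfInjective e.toMonoidHom e.injective).surjective
  · rwa [← Nat.card_congr (C.equivMapOfInjective e.toMonoidHom e.injective).toEquiv]
  · rw [← h4]
    have := Subgroup.index_map_equiv C e
    exact this

end Pool.Agent.K1H12.SW
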