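import Pool.Agent.K1H12.SW.Asm2
import Pool.Agent.K1H12.SW.Cyc

set_option autoImplicit false

namespace Pool.Agent.K1H12.SW

/-- all pieces -/
structure Pieces : Prop where
  A : AllRep
  B : AllFin
  C : AllFinA
  IND : S_IND
  PERM : S_PERMa
  EL : S_EL
  CH : S_CH
  RAT : S_RAT
  BUR : S_BUR
  SOL : S_SOL
  HE : S_HE
  DEF : S_DEF
  SUB : S_SUB
  ISO : S_ISO

variable {G : Type} [Group G]

/-- `ℤ^m` has a finite free resolution -/
def FRm (G : Type) [Group G] (m : ℕ) : Prop := FreeRes G (Fin m → ℤ)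

theorem frm_iff (h : S_DEF) (m : ℕ) : FRm G m ↔ FFr (trivN G m) :=
  ⟨(h G (Fin m → ℤ)).2.1, (h G (Fin m → ℤ)).2.2⟩

theorem iso_triv_one : IsoR (trivN G 1) (triv G) :=
  ⟨LinearEquiv.funUnique (Fin 1) ℤ ℤ, fun _ _ => rfl⟩

theorem frm_one (P : Pieces) : FRm G 1 ↔ FreeRes G ℤ := by
  rw [frm_iff P.DEF]
  constructor
  · intro h
    exact (P.DEF G ℤ).2.2 ((P.A G).isoF _ _ _ _ iso_triv_one h)
  · intro h
    exact (P.A G).isoF _ _ _ _ (isoR_symm iso_triv_one) ((P.DEF G ℤ).2.1 h)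

theorem frm_zero (P : Pieces) : FRm G 0 := by
  rw [frm_iff P.DEF]
  exact (P.A G).zeroF _ _ inferInstance

theorem ses_trivN (a b : ℕ) : Ses (trivN G a) (trivN G (a + b)) (trivN G b) := by
  refine ⟨⟨⟨fun v => Fin.append v 0, ?_⟩, ?_⟩, ⟨⟨fun v i => v (Fin.natAdd a i), ?_⟩, ?_⟩,
    ?_, ?_, ?_, ?_, ?_⟩
  · intro v w
    funext i
    refine Fin.addCases (fun j => ?_) (fun j => ?_) i <;> simp
  · intro n w
    funext i
    refine Fin.addCases (fun j => ?_) (fun j => ?_) i <;> simp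
  · intro v w
    rfl
  · intro n v
    rfl
  · intro g v
    rfl
  · intro g v
    rfl
  · intro v w h
    funext i
    have := congrFun h (Fin.castAdd b i)
    simpa using this
  · intro v
    refine ⟨Fin.append 0 v, ?_⟩
    funext i
    simp
  · intro v
    constructor
    · intro h
      refine ⟨fun i => v (Fin.castAdd b i), ?_⟩
      funext i
      refine Fin.addCases (fun j => ?_) (fun j => ?_) i
      · simp
      · have := congrFun h j
        simp only [LinearMap.coe_mk, AddHom.coe_mk, Pi.zero_apply] at this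
        simp [this]
    · rintro ⟨w, rfl⟩
      funext i
      simp

theorem frm_add (P : Pieces) {a b : ℕ} (ha : FRm G a) (hb : FRm G b) : FRm G (a + b) := by
  rw [frm_iff P.DEF] at *
  exact ((P.A G).ttF _ _ _ _ _ _ (ses_trivN a b)).1 ha hb

theorem frm_sub (P : Pieces) {a b : ℕ} (ha : FRm G a) (hb : FRm G (a + b)) : FRm G b := by
  rw [frm_iff P.DEF] at *
  exact ((P.A G).ttF _ _ _ _ _ _ (ses_trivN a b)).2.2 ha hb

theorem frm_mul (P : Pieces) {a : ℕ} (b : ℕ) (ha : FRm G a) : FRm G (b * a) := by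
  rw [frm_iff P.DEF] at *
  exact trivN_mul P.A b a ha

/-- the numbers `m` such that `ℤ^m` has a finite free resolution are the multiples of one number -/
theorem exists_order (P : Pieces) (G : Type) [Group G] :
    ∃ d : ℕ, FRm G d ∧ ∀ m : ℕ, FRm G m → d ∣ m := by
  classical
  by_cases h : ∃ m : ℕ, 0 < m ∧ FRm G m
  · refine ⟨Nat.find h, (Nat.find_spec h).2, ?_⟩
    intro m
    induction m using Nat.strong_induction_on with
    | _ m ih =>
      intro hm
      rcases Nat.eq_zero_or_pos m with h0 | h0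
      · rw [h0]
        exact dvd_zero _
      · have h1 : Nat.find h ≤ m := Nat.find_min' h ⟨h0, hm⟩
        obtain ⟨b, rfl⟩ := Nat.exists_eq_add_of_le h1
        have h2 : FRm G b := frm_sub P (Nat.find_spec h).2 hm
        have h3 : b < Nat.find h + b := by
          have := (Nat.find_spec h).1
          omega
        exact Dvd.dvd.add (dvd_refl _) (ih b h3 h2) |> fun x => x
  · refine ⟨0, frm_zero P, fun m hm => ?_⟩
    rcases Nat.eq_zero_or_pos m with h0 | h0
    · rw [h0]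
    · exact absurd ⟨m, h0, hm⟩ h

/-- the common multiple argument -/
theorem common (P : Pieces) {Q : Type} [Group Q] [Finite Q] (π : G →* Q)
    (hG : ProjRes G ℤ) (𝓗 : Subgroup Q → Prop) (S : ℕ → Prop) (hS1 : S 1)
    (hSm : ∀ a b, S a → S b → S (a * b)) (m : ℕ) (hm : IndM Q 𝓗 m) (hSm' : S m)
    (h : ∀ H : Subgroup Q, 𝓗 H → ∃ a, S a ∧ FRm (H.comap π) a) : ∃ a, S a ∧ FRm G a := by
  classical
  have hfin : Finite (Subgroup Q) := inferInstance
  have := Fintype.ofFinite (Subgroup Q)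
  have h1 : ∀ H : Subgroup Q, ∃ a, S a ∧ (𝓗 H → FRm (H.comap π) a) := by
    intro H
    by_cases hH : 𝓗 H
    · obtain ⟨a, ha, hb⟩ := h H hH
      exact ⟨a, ha, fun _ => hb⟩
    · exact ⟨1, hS1, fun h => absurd h hH⟩
  choose a ha hb using h1
  have hprod : ∀ s : Finset (Subgroup Q), S (∏ H ∈ s, a H) := by
    intro s
    induction s using Finset.induction_on with
    | empty => simpa using hS1
    | insert H s hH ih =>
      rw [Finset.prod_insert hH]
      exact hSm _ _ (ha H) ih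
  refine ⟨(∏ H, a H) * (m * m), hSm _ _ (hprod _) (hSm _ _ hSm' hSm'), ?_⟩
  rw [frm_iff P.DEF]
  refine asm P.A P.B P.C P.IND P.PERM P.EL P.CH P.RAT G Q π 𝓗 m _ hm ((P.DEF G ℤ).1 hG) ?_
  intro H hH
  rw [← frm_iff P.DEF]
  have h2 : (∏ H, a H) = (∏ K ∈ Finset.univ.erase H, a K) * a H := by
    rw [Finset.prod_erase_mul _ _ (Finset.mem_univ H)]
  rw [h2]
  exact frm_mul P _ (hb H hH)

theorem comap_fi {Q : Type} [Group Q] [Finite Q] (π : G →* Q) (H : Subgroup Q) :
    (H.comap π).FiniteIndex := by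
  refine ⟨?_⟩
  rw [Subgroup.index_comap]
  exact Subgroup.index_ne_zero_of_finite (H := H.subgroupOf π.range)

/-- part one: hyperelementary subgroups -/
theorem part1 (P : Pieces) (hG : ProjRes G ℤ) {Q : Type} [Group Q] [Finite Q] (π : G →* Q) :
    FreeRes G ℤ ↔ ∀ H : Subgroup Q, (∃ p : ℕ, p.Prime ∧ Hyp p H) → FreeRes (H.comap π) ℤ := by
  constructor
  · intro h H _
    exact (P.SUB G _ (comap_fi π H) ℤ).2 h
  · intro h
    obtain ⟨a, ha, hb⟩ := common P π hG (fun H => ∃ p : ℕ, p.Prime ∧ Hyp p H) (fun a => a = 1) rfl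
      (fun a b ha hb => by rw [ha, hb]) 1 (P.HE P.BUR P.SOL Q).2.1 rfl
      (fun H hH => ⟨1, rfl, (frm_one P).2 (h H hH)⟩)
    subst ha
    exact (frm_one P).1 hb

/-- part two: `p`-hyperelementary subgroups -/
theorem part2 (P : Pieces) (hG : ProjRes G ℤ) {Q : Type} [Group Q] [Finite Q] (π : G →* Q)
    (p : ℕ) (hp : p.Prime) :
    (∃ m : ℕ, ¬ p ∣ m ∧ FRm G m) ↔
      ∀ H : Subgroup Q, Hyp p H → ∃ m : ℕ, ¬ p ∣ m ∧ FRm (H.comap π) m := by
  constructor
  · rintro ⟨m, h1, h2⟩ H _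
    exact ⟨m, h1, (P.SUB G _ (comap_fi π H) _).2 h2⟩
  · intro h
    obtain ⟨m, hm, hm'⟩ := (P.HE P.BUR P.SOL Q).1 p hp
    exact common P π hG (fun H => Hyp p H) (fun a => ¬ p ∣ a)
      (fun h => hp.one_lt.ne' (Nat.dvd_one.1 h))
      (fun a b ha hb h => (hp.dvd_mul.1 h).elim ha hb) m hm' hm h

/-- part three: cyclic subgroups -/
theorem part3 (P : Pieces) (hG : ProjRes G ℤ) {Q : Type} [Group Q] [Finite Q] (π : G →* Q) :
    (∃ m : ℕ, 0 < m ∧ FRm G m) ↔
      ∀ C : Subgroup Q, IsCyclic C → ∃ m : ℕ, 0 < m ∧ FRm (C.comap π) m := by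
  constructor
  · rintro ⟨m, h1, h2⟩ H _
    exact ⟨m, h1, (P.SUB G _ (comap_fi π H) _).2 h2⟩
  · intro h
    obtain ⟨m, hm, hm'⟩ := (P.HE P.BUR P.SOL Q).2.2
    exact common P π hG (fun H => IsCyclic H) (fun a => 0 < a) one_pos
      (fun a b ha hb => Nat.mul_pos ha hb) m hm' hm h

/-- part four: the structure of a minimal counterexample -/
theorem part4 (P : Pieces) (hG : ProjRes G ℤ) (K : Subgroup G) (hK : K.FiniteIndex)
    (hKF : FreeRes K ℤ) (hn : ¬ FreeRes G ℤ) :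
    ∃ L N : Subgroup G, N.Normal ∧ N.FiniteIndex ∧ FreeRes N ℤ ∧ N ≤ L ∧ ¬ FreeRes L ℤ ∧
      (∀ M : Subgroup G, N ≤ M → M < L → FreeRes M ℤ) ∧
      ∃ (_ : (N.subgroupOf L).Normal) (p : ℕ), p.Prime ∧ Hyp p (L ⧸ N.subgroupOf L) ∧
        (IsCyclic (L ⧸ N.subgroupOf L) ∨ ∃ k : ℕ, FRm L (p ^ k)) := by
  classical
  set N : Subgroup G := K.normalCore with hN
  have hNK : N ≤ K := K.normalCore_le
  have hNn : N.Normal := K.normalCore_normal
  have hNf : N.FiniteIndex := inferInstance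
  have hNF : FreeRes N ℤ := by
    have h1 : (N.subgroupOf K).FiniteIndex := inferInstance
    exact (P.ISO _ _ (Subgroup.subgroupOfEquivOfLe hNK) ℤ).2 ((P.SUB K _ h1 ℤ).2 hKF)
  -- a minimal bad subgroup
  have hex : ∃ n : ℕ, ∃ L : Subgroup G, N ≤ L ∧ ¬ FreeRes L ℤ ∧ N.relIndex L = n := by
    refine ⟨_, ⊤, le_top, fun h => hn ?_, rfl⟩
    exact (P.ISO _ _ Subgroup.topEquiv ℤ).2 h
  obtain ⟨L, hNL, hLF, hLn⟩ := Nat.find_spec hex
  have hmin : ∀ M : Subgroup G, N ≤ M → M < L → FreeRes M ℤ := by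
    intro M hNM hML
    by_contra hMF
    have h1 := Nat.find_min' hex ⟨M, hNM, hMF, rfl⟩
    rw [← hLn] at h1
    have h2 := Subgroup.relIndex_mul_relIndex N M L hNM hML.le
    have h3 : N.relIndex L ≠ 0 :=
      (inferInstance : (N.subgroupOf L).FiniteIndex).index_ne_zero
    have h4 : M.relIndex L ≠ 1 := by
      intro h
      exact hML.not_ge (Subgroup.relIndex_eq_one.1 h)
    have h5 : M.relIndex L ≠ 0 := by
      intro h
      rw [h, mul_zero] at h2
      exact h3 h2.symm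
    have h6 : N.relIndex M ≠ 0 := by
      intro h
      rw [h, zero_mul] at h2
      exact h3 h2.symm
    have h7 : 2 ≤ M.relIndex L := by omega
    have h8 : N.relIndex M * 2 ≤ N.relIndex M * M.relIndex L := Nat.mul_le_mul_left _ h7
    rw [h2] at h8
    omega
  have hLfi : L.FiniteIndex := Subgroup.finiteIndex_of_le hNL
  have hLP : ProjRes L ℤ := (P.SUB G L hLfi ℤ).1 hG
  have hN'n : (N.subgroupOf L).Normal := inferInstance
  have hN'f : (N.subgroupOf L).FiniteIndex := inferInstance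
  have hQf : Finite (L ⧸ N.subgroupOf L) := inferInstance
  let π : L →* (L ⧸ N.subgroupOf L) := QuotientGroup.mk' (N.subgroupOf L)
  have hprop : ∀ H : Subgroup (L ⧸ N.subgroupOf L), H ≠ ⊤ → FreeRes (H.comap π) ℤ := by
    intro H hH
    have h1 : N ≤ (H.comap π).map L.subtype := by
      intro x hx
      refine ⟨⟨x, hNL hx⟩, ?_, rfl⟩
      have h2 : π ⟨x, hNL hx⟩ = 1 := (QuotientGroup.eq_one_iff _).2 (Subgroup.mem_subgroupOf.2 hx)
      show π ⟨x, hNL hx⟩ ∈ H
      rw [h2]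
      exact H.one_mem
    have h2 : (H.comap π).map L.subtype < L := by
      refine lt_of_le_of_ne (Subgroup.map_subtype_le _) ?_
      intro h3
      apply hH
      rw [eq_top_iff]
      intro y _
      obtain ⟨x, rfl⟩ := QuotientGroup.mk'_surjective (N.subgroupOf L) y
      have h4 : (x : G) ∈ (H.comap π).map L.subtype := by
        rw [h3]
        exact x.2
      obtain ⟨z, hz, hzx⟩ := h4
      have h5 : z = x := Subtype.ext hzx
      rw [← h5]
      exact hz
    exact (P.ISO _ _ (Subgroup.equivMapOfInjective (H.comap π) L.subtype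
      L.subtype_injective).symm ℤ).2 (hmin _ h1 h2)
  -- the quotient is hyperelementary
  have h1 : ∃ p : ℕ, p.Prime ∧ Hyp p (L ⧸ N.subgroupOf L) := by
    by_contra hc
    apply hLF
    rw [part1 P hLP π]
    rintro H ⟨p, hp, hH⟩
    apply hprop
    rintro rfl
    exact hc ⟨p, hp, hyp_iso Subgroup.topEquiv hH⟩
  obtain ⟨p, hp, hQp⟩ := h1
  refine ⟨L, N, hNn, hNf, hNF, hNL, hLF, hmin, hN'n, p, hp, hQp, ?_⟩
  by_cases hcyc : IsCyclic (L ⧸ N.subgroupOf L)
  · exact Or.inl hcyc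
  · right
    obtain ⟨d, hd, hdm⟩ := exists_order P L
    have h2 : ∃ m : ℕ, 0 < m ∧ FRm L m := by
      rw [part3 P hLP π]
      intro C hC
      refine ⟨1, one_pos, (frm_one P).2 (hprop C ?_)⟩
      rintro rfl
      exact hcyc (isCyclic_of_surjective Subgroup.topEquiv Subgroup.topEquiv.surjective)
    have hd0 : d ≠ 0 := by
      rintro rfl
      obtain ⟨m, hm, hm'⟩ := h2
      have := Nat.eq_zero_of_zero_dvd (hdm m hm')
      omega
    have h3 : ∀ {q : ℕ}, q.Prime → q ∣ d → q = p := by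
      intro q hq hqd
      by_contra hqp
      have h4 : ∃ m : ℕ, ¬ q ∣ m ∧ FRm L m := by
        rw [part2 P hLP π q hq]
        intro H hH
        refine ⟨1, fun h => hq.one_lt.ne' (Nat.dvd_one.1 h), (frm_one P).2 (hprop H ?_)⟩
        rintro rfl
        exact hcyc (cyclic_of_two hq hp hqp (hyp_iso Subgroup.topEquiv hH) hQp)
      obtain ⟨m, hm, hm'⟩ := h4
      exact hm (hqd.trans (hdm m hm'))
    have h4 := Nat.eq_prime_pow_of_unique_prime_dvd hd0 h3
    exact ⟨_, h4 ▸ hd⟩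

end Pool.Agent.K1H12.SW
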