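import Pool.Agent.K1H12.SW.Stm2

set_option autoImplicit false

/-!
# Interface of the project HE, part 3
-/

namespace Pool.Agent.K1H12.SW

/-- PIECE ART (Artin's induction theorem for the trivial character, with the order of the group) -/
def S_ART : Prop := ∀ (Q : Type) [Group Q] [Finite Q], IndM Q (fun H => IsCyclic H) (Nat.card Q)

end Pool.Agent.K1H12.SW
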