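import Pool.Agent.K1H12.SW.Main
import Pool.Agent.K1H12.SW.Stm3

set_option autoImplicit false

namespace Pool.Agent.K1H12.SW

open Function

/-- quotients of `p`-hyperelementary groups -/
theorem hyp_surj {p : ℕ} (hp : p.Prime) {H K : Type} [Group H] [Group K] (f : H →* K)
    (hf : Surjective f) (h : Hyp p H) : Hyp p K := by
  obtain ⟨C, h1, h2, h3, k, h4⟩ := h
  have h5 : (C.map f).index ∣ p ^ k := h4 ▸ C.index_map_dvd hf
  obtain ⟨l, _, hl⟩ := (Nat.dvd_prime_pow hp).1 h5
  refine ⟨C.map f, Subgroup.Normal.map h1 f hf, ?_, ?_, l, hl⟩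
  · exact isCyclic_of_surjective (f.subgroupMap C) (f.subgroupMap_surjective C)
  · exact Nat.Coprime.coprime_dvd_left (Subgroup.card_map_dvd C f) h3

/-- cyclic groups are `p`-hyperelementary -/
theorem hyp_cyclic {p : ℕ} (hp : p.Prime) {H : Type} [Group H] [Finite H] (h : IsCyclic H) :
    Hyp p H := by
  obtain ⟨g, hg⟩ := h.exists_zpow_surjective
  have ho : orderOf g = Nat.card H := by
    rw [← Nat.card_zpowers]
    have : Subgroup.zpowers g = ⊤ := by
      rw [eq_top_iff]
      intro x _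
      exact hg x
    rw [this, Subgroup.card_top]
  have hn : Nat.card H ≠ 0 := Nat.card_pos.ne'
  obtain ⟨k, r, hr, hkr⟩ := Nat.exists_eq_pow_mul_and_not_dvd hn p hp.ne_one
  have hor : orderOf (g ^ p ^ k) = r := by
    rw [orderOf_pow_of_dvd (pow_ne_zero _ hp.ne_zero) (by rw [ho, hkr]; exact Dvd.intro _ rfl), ho,
      hkr]
    exact Nat.mul_div_cancel_left _ (pow_pos hp.pos _)
  have hcard : Nat.card (Subgroup.zpowers (g ^ p ^ k)) = r := by rw [Nat.card_zpowers, hor]
  refine ⟨Subgroup.zpowers (g ^ p ^ k), ?_, inferInstance, ?_, k, ?_⟩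
  · constructor
    intro x hx y
    have : y * x * y⁻¹ = x := by
      have h1 : y * x = x * y := by
        obtain ⟨a, rfl⟩ := hg x
        obtain ⟨b, rfl⟩ := hg y
        simp only [← zpow_add, add_comm]
      rw [h1, mul_inv_cancel_right]
    rwa [this]
  · rw [hcard]
    exact ((Nat.Prime.coprime_iff_not_dvd hp).2 hr).symm
  · have h1 := Subgroup.card_mul_index (Subgroup.zpowers (g ^ p ^ k))
    rw [hcard, hkr] at h1
    have hr0 : 0 < r := by
      rcases Nat.eq_zero_or_pos r with h | h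
      · rw [h] at hr
        exact absurd (dvd_zero p) hr
      · exact h
    have h2 : r * (Subgroup.zpowers (g ^ p ^ k)).index = r * p ^ k := by rw [h1, mul_comm]
    exact Nat.eq_of_mul_eq_mul_left hr0 h2

variable {G : Type} [Group G]

theorem mono (P : Pieces) {A B : Subgroup G} (hAB : A ≤ B) (hA : A.FiniteIndex)
    (h : FreeRes B ℤ) : FreeRes A ℤ := by
  have h1 : (A.subgroupOf B).FiniteIndex := inferInstance
  exact (P.ISO _ _ (Subgroup.subgroupOfEquivOfLe hAB) ℤ).2 ((P.SUB B _ h1 ℤ).2 h)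

/-- the preimage of the image in another quotient -/
theorem bad_map (P : Pieces) {Q Q' : Type} [Group Q] [Finite Q] [Group Q'] (π : G →* Q)
    (π' : G →* Q') (f : Q →* Q') (hf : ∀ g, f (π g) = π' g) (H : Subgroup Q)
    (h : FreeRes ((H.map f).comap π') ℤ) : FreeRes (H.comap π) ℤ := by
  refine mono P ?_ (comap_fi π H) h
  intro g hg
  exact ⟨π g, hg, hf g⟩

/-- part five: a counterexample comes with a prime -/
theorem part5 (P : Pieces) (hG : ProjRes G ℤ) (hn : ¬ FreeRes G ℤ) :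
    ∃ p : ℕ, p.Prime ∧ ∀ (Q : Type) [Group Q] [Finite Q] (π : G →* Q),
      ∃ H : Subgroup Q, Hyp p H ∧ ¬ FreeRes (H.comap π) ℤ := by
  classical
  by_contra hc
  have hc' : ∀ p : {p : ℕ // p.Prime}, ∃ (Q : Type) (_ : Group Q) (_ : Finite Q) (π : G →* Q),
      ∀ H : Subgroup Q, Hyp p H → FreeRes (H.comap π) ℤ := by
    rintro ⟨p, hp⟩
    by_contra h
    apply hc
    refine ⟨p, hp, ?_⟩
    intro Q i1 i2 π
    by_contra h2
    apply h
    refine ⟨Q, i1, i2, π, fun H hH => ?_⟩
    by_contra h3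
    exact h2 ⟨H, hH, h3⟩
  choose Q gQ fQ π hπ using hc'
  let two : {p : ℕ // p.Prime} := ⟨2, Nat.prime_two⟩
  -- the primes
  set s : Finset ℕ := insert 2 ((Nat.card (Q two)).primeFactors) with hs
  have hsp : ∀ p ∈ s, p.Prime := by
    intro p hp
    rcases Finset.mem_insert.1 hp with rfl | hp
    · exact Nat.prime_two
    · exact (Nat.mem_primeFactors.1 hp).1
  let u : s → {p : ℕ // p.Prime} := fun p => ⟨p, hsp p p.2⟩
  let R : Type := ∀ p : s, Q (u p)
  have fR : Finite R := Pi.finite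
  let ρ : G →* R := MonoidHom.pi fun p => π (u p)
  have h1 := mt (part1 P hG ρ).2 hn
  push Not at h1
  obtain ⟨H, ⟨p, hp, hH⟩, hbad⟩ := h1
  let ev : ∀ q : s, R →* Q (u q) := fun q => Pi.evalMonoidHom (fun p : s => Q (u p)) q
  have key : ∀ q : s, Hyp q (H.map (ev q)) → False := by
    intro q hq
    apply hbad
    refine bad_map P ρ (π (u q)) (ev q) (fun g => rfl) H ?_
    exact hπ (u q) _ hq
  have him : ∀ q : s, Hyp p (H.map (ev q)) := fun q =>
    hyp_surj hp ((ev q).subgroupMap H) ((ev q).subgroupMap_surjective H) hH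
  by_cases hps : p ∈ s
  · exact key ⟨p, hps⟩ (him ⟨p, hps⟩)
  · have h2s : 2 ∈ s := Finset.mem_insert_self _ _
    have hu : u ⟨2, h2s⟩ = two := rfl
    have h2 := him ⟨2, h2s⟩
    obtain ⟨C, hC1, hC2, hC3, k, hC4⟩ := h2
    have h3 : Nat.card (H.map (ev ⟨2, h2s⟩)) ∣ Nat.card (Q two) :=
      Subgroup.card_subgroup_dvd_card _
    have h4 : p ^ k ∣ Nat.card (Q two) := by
      refine (Dvd.dvd.trans ?_ h3)
      rw [← hC4]
      exact C.index_dvd_card
    have h5 : k = 0 := by
      by_contra hk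
      apply hps
      exact Finset.mem_insert_of_mem (Nat.mem_primeFactors.2
        ⟨hp, (dvd_pow_self p hk).trans h4, Nat.card_pos.ne'⟩)
    rw [h5, pow_zero] at hC4
    have h6 : C = ⊤ := Subgroup.index_eq_one.1 hC4
    subst h6
    have h7 : IsCyclic (H.map (ev ⟨2, h2s⟩)) :=
      isCyclic_of_surjective Subgroup.topEquiv Subgroup.topEquiv.surjective
    exact key ⟨2, h2s⟩ (hyp_cyclic Nat.prime_two h7)

end Pool.Agent.K1H12.SW
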