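import Pool.Agent.K1H12.SW.Main2

set_option autoImplicit false

namespace Pool.Agent.K1H12.SW

open Function

/-- finite hyperelementary groups are solvable -/
theorem hyp_solvable {p : ℕ} (hp : p.Prime) {Q : Type} [Group Q] [Finite Q] (h : Hyp p Q) :
    Group.IsSolvable Q := by
  obtain ⟨C, h1, h2, h3, k, h4⟩ := h
  have hC : Group.IsSolvable C := by
    refine Group.isSolvable_of_comm fun a b => ?_
    obtain ⟨g, hg⟩ := h2.exists_zpow_surjective
    obtain ⟨m, rfl⟩ := hg a
    obtain ⟨n, rfl⟩ := hg b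
    simp only [← zpow_add, add_comm]
  have hp' : Fact p.Prime := ⟨hp⟩
  have hQ : IsPGroup p (Q ⧸ C) := IsPGroup.of_card (n := k) (by
    rw [← h4]
    exact (Subgroup.index_eq_card C).symm)
  have hQn : Group.IsNilpotent (Q ⧸ C) := hQ.isNilpotent
  have hQs : Group.IsSolvable (Q ⧸ C) := inferInstance
  refine Group.isSolvable_of_ker_le_range C.subtype (QuotientGroup.mk' C) ?_
  rw [QuotientGroup.ker_mk', Subgroup.range_subtype]

/-- finite nontrivial solvable groups have a normal subgroup of prime index -/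
theorem exists_prime_index (Q : Type) [Group Q] [Finite Q] [Nontrivial Q] [Group.IsSolvable Q] :
    ∃ H : Subgroup Q, H.Normal ∧ H.index.Prime := by
  have h1 : commutator Q < ⊤ := Group.IsSolvable.commutator_lt_top_of_nontrivial Q
  have h2 : Nontrivial (Abelianization Q) := by
    by_contra h
    rw [not_nontrivial_iff_subsingleton] at h
    apply h1.ne
    rw [eq_top_iff]
    intro x _
    have h3 : (QuotientGroup.mk x : Q ⧸ commutator Q) = QuotientGroup.mk 1 :=
      @Subsingleton.elim (Abelianization Q) h (QuotientGroup.mk x) (QuotientGroup.mk 1)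
    have h4 := (QuotientGroup.eq (s := commutator Q)).1 h3
    simpa using (commutator Q).inv_mem h4
  have h3 : Finite (Abelianization Q) := by
    unfold Abelianization
    infer_instance
  obtain ⟨B, hB, _⟩ := (eq_top_or_exists_le_coatom (⊥ : Subgroup (Abelianization Q))).resolve_left
    (fun h => by
      have : (⊥ : Subgroup (Abelianization Q)) ≠ ⊤ := bot_ne_top
      exact this h)
  have hBn : B.Normal := inferInstance
  have hsimple : IsSimpleGroup (Abelianization Q ⧸ B) := by
    have hnt : Nontrivial (Abelianization Q ⧸ B) := QuotientGroup.nontrivial_iff.2 hB.1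
    refine ⟨fun H hH => ?_⟩
    have h4 : B ≤ H.comap (QuotientGroup.mk' B) := by
      intro x hx
      have h5 : QuotientGroup.mk' B x = 1 := (QuotientGroup.eq_one_iff x).2 hx
      show QuotientGroup.mk' B x ∈ H
      rw [h5]
      exact H.one_mem
    rcases hB.le_iff.1 h4 with h5 | h5
    · right
      rw [eq_top_iff]
      intro y _
      obtain ⟨x, rfl⟩ := QuotientGroup.mk'_surjective B y
      have h6 : x ∈ H.comap (QuotientGroup.mk' B) := by
        rw [h5]
        exact Subgroup.mem_top x
      exact h6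
    · left
      rw [eq_bot_iff]
      intro y hy
      obtain ⟨x, rfl⟩ := QuotientGroup.mk'_surjective B y
      have h6 : x ∈ H.comap (QuotientGroup.mk' B) := hy
      rw [h5] at h6
      exact Subgroup.mem_bot.2 ((QuotientGroup.eq_one_iff x).2 h6)
  have h4 : (Nat.card (Abelianization Q ⧸ B)).Prime := IsSimpleGroup.prime_card
  refine ⟨B.comap Abelianization.of, inferInstance, ?_⟩
  have h6 : Surjective (Abelianization.of : Q →* Abelianization Q) :=
    QuotientGroup.mk'_surjective (commutator Q)
  rw [Subgroup.index_comap_of_surjective B h6, Subgroup.index_eq_card]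
  exact h4

variable {G : Type} [Group G]

/-- preimages of proper subgroups of the quotient `L / N` -/
theorem prop_comap (P : Pieces) (L N : Subgroup G) (hNL : N ≤ L) (hN : (N.subgroupOf L).Normal)
    (hmin : ∀ M : Subgroup G, N ≤ M → M < L → FreeRes M ℤ)
    (H : Subgroup (L ⧸ N.subgroupOf L)) (hH : H ≠ ⊤) :
    FreeRes (H.comap (QuotientGroup.mk' (N.subgroupOf L))) ℤ := by
  have h1 : N ≤ (H.comap (QuotientGroup.mk' (N.subgroupOf L))).map L.subtype := by
    intro x hx
    refine ⟨⟨x, hNL hx⟩, ?_, rfl⟩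
    have h2 : QuotientGroup.mk' (N.subgroupOf L) ⟨x, hNL hx⟩ = 1 :=
      (QuotientGroup.eq_one_iff _).2 (Subgroup.mem_subgroupOf.2 hx)
    show QuotientGroup.mk' (N.subgroupOf L) ⟨x, hNL hx⟩ ∈ H
    rw [h2]
    exact H.one_mem
  have h2 : (H.comap (QuotientGroup.mk' (N.subgroupOf L))).map L.subtype < L := by
    refine lt_of_le_of_ne (Subgroup.map_subtype_le _) ?_
    intro h3
    apply hH
    rw [eq_top_iff]
    intro y _
    obtain ⟨x, rfl⟩ := QuotientGroup.mk'_surjective (N.subgroupOf L) y
    have h4 : (x : G) ∈ (H.comap (QuotientGroup.mk' (N.subgroupOf L))).map L.subtype := by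
      rw [h3]
      exact x.2
    obtain ⟨z, hz, hzx⟩ := h4
    have h5 : z = x := Subtype.ext hzx
    rw [← h5]
    exact hz
  exact (P.ISO _ _ (Subgroup.equivMapOfInjective _ L.subtype L.subtype_injective).symm ℤ).2
    (hmin _ h1 h2)

/-- the normal subgroup of prime index -/
theorem prime_index (P : Pieces) (L N : Subgroup G) (hNf : N.FiniteIndex) (hNF : FreeRes N ℤ)
    (hNL : N ≤ L) (hLF : ¬ FreeRes L ℤ) (hmin : ∀ M : Subgroup G, N ≤ M → M < L → FreeRes M ℤ)
    (hN' : (N.subgroupOf L).Normal) {p : ℕ} (hp : p.Prime) (hQ : Hyp p (L ⧸ N.subgroupOf L)) :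
    ∃ M : Subgroup L, M.Normal ∧ M.index.Prime ∧ N.subgroupOf L ≤ M ∧ FreeRes M ℤ := by
  have hN'f : (N.subgroupOf L).FiniteIndex := inferInstance
  have hQf : Finite (L ⧸ N.subgroupOf L) := inferInstance
  have hnt : Nontrivial (L ⧸ N.subgroupOf L) := by
    rw [QuotientGroup.nontrivial_iff]
    intro h
    have h1 : L ≤ N := Subgroup.subgroupOf_eq_top.1 h
    exact hLF ((le_antisymm h1 hNL) ▸ hNF)
  have hs : Group.IsSolvable (L ⧸ N.subgroupOf L) := hyp_solvable hp hQ
  obtain ⟨H, hHn, hHi⟩ := exists_prime_index (L ⧸ N.subgroupOf L)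
  refine ⟨H.comap (QuotientGroup.mk' (N.subgroupOf L)), inferInstance, ?_, ?_, ?_⟩
  · rw [Subgroup.index_comap_of_surjective H (QuotientGroup.mk'_surjective _)]
    exact hHi
  · intro x hx
    have h2 : QuotientGroup.mk' (N.subgroupOf L) x = 1 := (QuotientGroup.eq_one_iff _).2 hx
    show QuotientGroup.mk' (N.subgroupOf L) x ∈ H
    rw [h2]
    exact H.one_mem
  · refine prop_comap P L N hNL hN' hmin H ?_
    rintro rfl
    rw [Subgroup.index_top] at hHi
    exact Nat.not_prime_one hHi

end Pool.Agent.K1H12.SW
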