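import Pool.Agent.K1H12.SW.Stm

set_option autoImplicit false

/-!
# Interface of the project HE, part 2: multiples of the trivial module
-/

namespace Pool.Agent.K1H12.SW

section pow

variable {G : Type} [Group G]

/-- the power `σ^k` -/
def powR (k : ℕ) {V : Type} [AddCommGroup V] (σ : Representation ℤ G V) :
    Representation ℤ G (Fin k → V) where
  toFun g :=
    { toFun := fun f i => σ g (f i)
      map_add' := fun f f' => by funext x; simp
      map_smul' := fun n f => by funext x; simp }
  map_one' := by ext f x; simp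
  map_mul' g h := by
    refine LinearMap.ext fun f => funext fun x => ?_
    simp

/-- the trivial representation on `ℤ^a` -/
abbrev trivN (G : Type) [Group G] (a : ℕ) : Representation ℤ G (Fin a → ℤ) :=
  Representation.trivial ℤ G (Fin a → ℤ)

end pow

/-- PIECE LATa (compare `S_LAT`) -/
def S_LATa : Prop := AllRep → ∀ (G : Type) [Group G] (V : Type) [AddCommGroup V]
  (ρ : Representation ℤ G V), Module.Finite ℤ V → Module.Free ℤ V →
  ∀ a : ℕ, FFr (trivN G a) → FFr (powR a ρ)

/-- the conclusion of the piece FINa -/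
def AllFinA : Prop := ∀ (G : Type) [Group G] (a : ℕ), FFr (trivN G a) →
  ∀ (V : Type) [AddCommGroup V] (ρ : Representation ℤ G V), Small ρ → FFr (powR a ρ)

/-- PIECE FINa (compare `S_FIN`) -/
def S_FINa : Prop := AllRep → S_LATa → AllFinA

/-- PIECE PERMa (compare `S_PERM`) -/
def S_PERMa : Prop := AllRep → AllFinA → S_IND → ∀ (G : Type) [Group G]
  (X : Type) [Finite X] [MulAction G X] (a : ℕ),
  (∀ x : X, FFr (trivN (MulAction.stabilizer G x) a)) →
  ∀ (V : Type) [AddCommGroup V] (σ : Representation ℤ G V), Small σ → FFr (powR a (permR X σ))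

/-- PIECE ISO -/
def S_ISO : Prop := ∀ (G G' : Type) [Group G] [Group G'] (_ : G ≃* G') (A : Type)
  [AddCommGroup A], (ProjRes G A → ProjRes G' A) ∧ (FreeRes G A → FreeRes G' A)

end Pool.Agent.K1H12.SW
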